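import Mathlib
import Pool.Agent.Lib.MP_be2ccc_co.AW.Good

/-!
# Weighing matrices of almost all weights in almost all admissible orders

For every `ε > 0`, all but `O(x / √(log x))` of the weights `k ≤ x` have the following property:
every order `n ≥ k ^ (1 + ε)` divisible by `4` admits a weighing matrix of weight `k`.
-/

set_option autoImplicit false

namespace Pool.Agent.Results.MP_be2ccc_co.AlmostAllWeights

open Classical in
/-- For every `ε > 0` there is `C > 0` such that for all `x ≥ 2`, at most `C x / √(log x)` integers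
`1 ≤ k ≤ x` fail to have this property: for every `n` divisible by four with `n ≥ k ^ (1 + ε)` there
is a weighing matrix of order `n` and weight `k`. -/
theorem result (ε : ℝ) (hε : 0 < ε) :
    ∃ C : ℝ, 0 < C ∧ ∀ x : ℕ, 2 ≤ x →
      (((Finset.Icc 1 x).filter (fun k : ℕ => ¬ ∀ n : ℕ, 4 ∣ n → (k : ℝ) ^ (1 + ε) ≤ (n : ℝ) →
        ∃ A : Matrix (Fin n) (Fin n) ℤ,
          (∀ i j, A i j = 0 ∨ A i j = 1 ∨ A i j = -1) ∧
          A.transpose * A = (k : ℤ) • (1 : Matrix (Fin n) (Fin n) ℤ) ∧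
          A * A.transpose = (k : ℤ) • (1 : Matrix (Fin n) (Fin n) ℤ))).card : ℝ) ≤
        C * ((x : ℝ) / Real.sqrt (Real.log x)) := by
  obtain ⟨C, hC, h⟩ := Pool.Agent.Lib.MP_be2ccc_co.AW.almost_all ε hε
  refine ⟨C, hC, fun x hx => le_trans ?_ (h x hx)⟩
  have hsub : (Finset.Icc 1 x).filter (fun k : ℕ => ¬ ∀ n : ℕ, 4 ∣ n → (k : ℝ) ^ (1 + ε) ≤ (n : ℝ) →
        ∃ A : Matrix (Fin n) (Fin n) ℤ,
          (∀ i j, A i j = 0 ∨ A i j = 1 ∨ A i j = -1) ∧
          A.transpose * A = (k : ℤ) • (1 : Matrix (Fin n) (Fin n) ℤ) ∧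
          A * A.transpose = (k : ℤ) • (1 : Matrix (Fin n) (Fin n) ℤ)) ⊆
      (Finset.Icc 1 x).filter (fun k : ℕ => ¬ ∀ n : ℕ, 4 ∣ n → (k : ℝ) ^ (1 + ε) ≤ (n : ℝ) →
        Pool.Agent.Lib.MP_be2ccc_co.HasW n k) := by
    intro k hk
    rw [Finset.mem_filter] at hk ⊢
    refine ⟨hk.1, fun hall => hk.2 fun n hn hkn => ?_⟩
    obtain ⟨A, hA, hAA⟩ := hall n hn hkn
    exact ⟨A, hA, Pool.Agent.Lib.MP_be2ccc_co.both_sides A hAA, hAA⟩
  exact_mod_cast Finset.card_le_card hsub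

end Pool.Agent.Results.MP_be2ccc_co.AlmostAllWeights
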