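import Mathlib
import Pool.Agent.Lib.MP_be2ccc_co.AS.Final
import Pool.Agent.Lib.MP_be2ccc_co.AS.Seven
import Pool.Agent.Lib.MP_be2ccc_co.NF.Conf

/-!
# The weighing matrix conjecture for orders with a large 2-part

For every real `ε > 0` there is a constant `C ε` such that there is a weighing matrix of order `n`
and weight `k` whenever `0 ≤ k ≤ n`, `2^v ∣ n` and `2^v ≥ C ε * k^ε`; one can take `C (7/8) = 36`.
-/

set_option autoImplicit false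

namespace Pool.Agent.Results.MP_be2ccc_co.LargeTwoPart

open Pool.Agent.Lib.MP_be2ccc_co

/-- from odd `m` to all `m ≥ 1` -/
lemma all_of_odd (c ε : ℝ) (hc : 0 < c) (hε : 0 < ε)
    (h : ∀ m t k : ℕ, m % 2 = 1 → c * (m : ℝ) ^ ε ≤ 2 ^ t → k ≤ 2 ^ t * m →
      HasW (2 ^ t * m) k) (m t k : ℕ) (hm : 0 < m) (ht : c * (m : ℝ) ^ ε ≤ 2 ^ t)
    (hk : k ≤ 2 ^ t * m) : HasW (2 ^ t * m) k := by
  obtain ⟨s, m', hm', rfl⟩ := Nat.exists_eq_two_pow_mul_odd hm.ne'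
  have e : 2 ^ t * (2 ^ s * m') = 2 ^ (t + s) * m' := by rw [pow_add]; ring
  rw [e] at hk ⊢
  refine h m' (t + s) k (Nat.odd_iff.1 hm') ?_ hk
  have h1 : (m' : ℝ) ≤ ((2 ^ s * m' : ℕ) : ℝ) := by
    exact_mod_cast Nat.le_mul_of_pos_left m' (by positivity)
  have h2 : (m' : ℝ) ^ ε ≤ ((2 ^ s * m' : ℕ) : ℝ) ^ ε :=
    Real.rpow_le_rpow (by positivity) h1 hε.le
  calc c * (m' : ℝ) ^ ε ≤ c * ((2 ^ s * m' : ℕ) : ℝ) ^ ε := by gcongr
    _ ≤ 2 ^ t := ht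
    _ ≤ 2 ^ (t + s) := pow_le_pow_right₀ (by norm_num) (by omega)

/-- direct sums of blocks of orders `2^t m'`, `κ ≤ m' ≤ 2 κ - 1`, `κ = ⌈k / 2^t⌉` -/
lemma split_blocks (m t k : ℕ) (hk0 : 0 < k) (hk : k ≤ 2 ^ t * m)
    (h : ∀ m' : ℕ, 0 < m' → (m' : ℝ) ≤ 1 + 2 * (k : ℝ) / 2 ^ t → k ≤ 2 ^ t * m' →
      HasW (2 ^ t * m') k) : HasW (2 ^ t * m) k := by
  have hp : 0 < 2 ^ t := by positivity
  obtain ⟨κ, hκ⟩ : ∃ κ, κ = (k + 2 ^ t - 1) / 2 ^ t := ⟨_, rfl⟩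
  have h1 : k ≤ 2 ^ t * κ := by
    have h2 := Nat.div_add_mod (k + 2 ^ t - 1) (2 ^ t)
    have h3 := Nat.mod_lt (k + 2 ^ t - 1) hp
    rw [← hκ] at h2
    omega
  have h2 : 2 ^ t * κ < k + 2 ^ t := by
    have h2 := Nat.div_mul_le_self (k + 2 ^ t - 1) (2 ^ t)
    rw [← hκ, mul_comm] at h2
    omega
  have hκ0 : 0 < κ := by
    rcases Nat.eq_zero_or_pos κ with h0 | h0
    · rw [h0] at h1; omega
    · exact h0
  have hκm : κ ≤ m := by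
    by_contra hlt
    push Not at hlt
    have h3 : 2 ^ t * (m + 1) ≤ 2 ^ t * κ := Nat.mul_le_mul_left _ hlt
    rw [mul_add, mul_one] at h3
    omega
  have hreal : (2 : ℝ) ^ t * ((κ : ℝ) - 1) < k := by
    have h3 : ((2 ^ t * κ : ℕ) : ℝ) < ((k + 2 ^ t : ℕ) : ℝ) := by exact_mod_cast h2
    push_cast at h3
    linarith
  have hpr : (0 : ℝ) < 2 ^ t := by positivity
  have hbd : (κ : ℝ) - 1 < (k : ℝ) / 2 ^ t := by
    rw [lt_div_iff₀ hpr]; linarith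
  have hk1 : (0 : ℝ) ≤ (k : ℝ) / 2 ^ t := by positivity
  have hκ1 : (1 : ℝ) ≤ κ := by exact_mod_cast hκ0
  have hy : 1 + 2 * (k : ℝ) / 2 ^ t = 1 + 2 * ((k : ℝ) / 2 ^ t) := by ring
  have hA : HasW (2 ^ t * κ) k := h κ hκ0 (by rw [hy]; linarith) h1
  have hmod := Nat.mod_lt m hκ0
  have hB : HasW (2 ^ t * (κ + m % κ)) k := by
    refine h (κ + m % κ) (by omega) ?_ (h1.trans (Nat.mul_le_mul_left _ (by omega)))
    have h4 : ((κ + m % κ : ℕ) : ℝ) ≤ 2 * (κ : ℝ) - 1 := by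
      have h5 : κ + m % κ + 1 ≤ 2 * κ := by omega
      have h6 : ((κ + m % κ + 1 : ℕ) : ℝ) ≤ ((2 * κ : ℕ) : ℝ) := by exact_mod_cast h5
      push_cast at h6 ⊢
      linarith
    rw [hy]
    linarith
  have hsum := (hA.mul (m / κ - 1)).add hB
  have e : (m / κ - 1) * (2 ^ t * κ) + 2 ^ t * (κ + m % κ) = 2 ^ t * m := by
    have h7 := Nat.div_add_mod m κ
    have h8 : 1 ≤ m / κ := (Nat.one_le_div_iff hκ0).2 hκm
    obtain ⟨b, hb⟩ : ∃ b, m / κ = b + 1 := ⟨m / κ - 1, by omega⟩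
    rw [hb, Nat.add_sub_cancel]
    rw [hb] at h7
    calc b * (2 ^ t * κ) + 2 ^ t * (κ + m % κ) = 2 ^ t * (κ * (b + 1) + m % κ) := by ring
      _ = 2 ^ t * m := by rw [h7]
  rwa [e] at hsum

/-- For every real `ε > 0` there is a constant `C ε`, with `C 7 = 2^30`, such that there is a
`W(2^t m, k)` for all `m ≥ 1`, all `t` and all `0 ≤ k ≤ 2^t m` with
`2^t ≥ C ε * min(m, 1 + 2 k / 2^t)^ε`. -/
theorem min_form :
    ∃ C : ℝ → ℝ, C 7 = 2 ^ 30 ∧ ∀ ε : ℝ, 0 < ε → 0 < C ε ∧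
      ∀ m t k : ℕ, 0 < m → k ≤ 2 ^ t * m →
        C ε * (min (m : ℝ) (1 + 2 * (k : ℝ) / 2 ^ t)) ^ ε ≤ 2 ^ t → HasW (2 ^ t * m) k := by
  classical
  obtain ⟨D, hD⟩ : ∃ D : ℝ → ℝ, ∀ ε : ℝ, 0 < ε → 0 < D ε ∧ ∀ m t k : ℕ, m % 2 = 1 →
      D ε * (m : ℝ) ^ ε ≤ 2 ^ t → k ≤ 2 ^ t * m → HasW (2 ^ t * m) k := by
    have h : ∀ ε : ℝ, ∃ d : ℝ, 0 < ε → 0 < d ∧ ∀ m t k : ℕ, m % 2 = 1 →
        d * (m : ℝ) ^ ε ≤ 2 ^ t → k ≤ 2 ^ t * m → HasW (2 ^ t * m) k := by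
      intro ε
      by_cases hε : 0 < ε
      · obtain ⟨d, hd, h⟩ := AS.eps_all ε hε
        exact ⟨d, fun _ => ⟨hd, h⟩⟩
      · exact ⟨0, fun h => absurd h hε⟩
    choose D hD using h
    exact ⟨D, hD⟩
  obtain ⟨C, h7, hC⟩ : ∃ C : ℝ → ℝ, C 7 = 2 ^ 30 ∧ ∀ ε : ℝ, 0 < ε → 0 < C ε ∧
      ∀ m t k : ℕ, 0 < m → C ε * (m : ℝ) ^ ε ≤ 2 ^ t → k ≤ 2 ^ t * m → HasW (2 ^ t * m) k := by
    refine ⟨fun ε => if ε = 7 then 2 ^ 30 else D ε, by simp, ?_⟩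
    intro ε hε
    by_cases h7 : ε = 7
    · subst h7
      simp only [if_true]
      refine ⟨by norm_num, fun m t k hm ht hk => ?_⟩
      refine all_of_odd (2 ^ 30) 7 (by norm_num) hε ?_ m t k hm ht hk
      intro m t k hm ht hk
      refine AS.seven m t k hm ?_ hk
      rw [Real.rpow_ofNat] at ht
      exact_mod_cast ht
    · simp only [if_neg h7]
      exact ⟨(hD ε hε).1, fun m t k hm ht hk =>
        all_of_odd (D ε) ε (hD ε hε).1 hε (hD ε hε).2 m t k hm ht hk⟩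
  refine ⟨C, h7, ?_⟩
  intro ε hε
  obtain ⟨hCpos, hC⟩ := hC ε hε
  refine ⟨hCpos, fun m t k hm hk ht => ?_⟩
  rcases Nat.eq_zero_or_pos k with hk0 | hk0
  · subst hk0
    exact ⟨0, fun i j => Or.inl rfl, by simp⟩
  rcases le_total (m : ℝ) (1 + 2 * (k : ℝ) / 2 ^ t) with hle | hle
  · rw [min_eq_left hle] at ht
    exact hC m t k hm ht hk
  · rw [min_eq_right hle] at ht
    refine split_blocks m t k hk0 hk fun m' hm' hle' hk' => hC m' t k hm' (le_trans ?_ ht) hk'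
    have h2 : (m' : ℝ) ^ ε ≤ (1 + 2 * (k : ℝ) / 2 ^ t) ^ ε :=
      Real.rpow_le_rpow (by positivity) hle' hε.le
    gcongr

/-- the classical case: `W(2^t m, k)` for `k ≤ 2^t` -/
lemma small_k (m t k : ℕ) (hk : k ≤ 2 ^ t) : HasW (2 ^ t * m) k := by
  obtain ⟨ι, _, _, H, hc, _, _, _, hZ⟩ := sylvester t
  obtain ⟨Z, hZt, hZZ, _⟩ := hZ k hk
  have h : HasW (2 ^ t) k := HasWI.hasW hc ⟨Z, hZt, hZZ⟩
  rw [mul_comm]
  exact h.mul m

/-- **Main result.** For every real `ε > 0` there is a constant `C ε`, with `C (7/8) = 36`, such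
that a `W(n, k)` exists for all `n`, `v`, `k` with `2^v ∣ n`, `0 ≤ k ≤ n` and
`2^v ≥ C ε * k^ε`. -/
theorem result :
    ∃ C : ℝ → ℝ, C (7 / 8) = 36 ∧ ∀ ε : ℝ, 0 < ε →
      ∀ n v k : ℕ, 2 ^ v ∣ n → k ≤ n → C ε * (k : ℝ) ^ ε ≤ 2 ^ v →
        ∃ A : Matrix (Fin n) (Fin n) ℤ,
          (∀ i j, A i j = 0 ∨ A i j = 1 ∨ A i j = -1) ∧
          A.transpose * A = (k : ℤ) • (1 : Matrix (Fin n) (Fin n) ℤ) ∧
          A * A.transpose = (k : ℤ) • (1 : Matrix (Fin n) (Fin n) ℤ) := by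
  classical
  obtain ⟨D, h7, hD⟩ := min_form
  refine ⟨fun ε => if ε = 7 / 8 then 36 else D ε * 3 ^ ε, by simp, ?_⟩
  intro ε hε n v k hv hk hn
  obtain ⟨m, rfl⟩ := hv
  have key : HasW (2 ^ v * m) k := by
    rcases le_or_gt k (2 ^ v) with hkv | hkv
    · exact small_k m v k hkv
    have hm : 0 < m := by
      rcases Nat.eq_zero_or_pos m with h0 | h0
      · rw [h0, mul_zero] at hk
        exact absurd (lt_of_lt_of_le hkv hk) (Nat.not_lt_zero _)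
      · exact h0
    have hp : (0 : ℝ) < 2 ^ v := by positivity
    have hp1 : (1 : ℝ) ≤ 2 ^ v := one_le_pow₀ (by norm_num)
    have hkr : (2 : ℝ) ^ v < k := by exact_mod_cast hkv
    have hk1 : (1 : ℝ) ≤ k := hp1.trans hkr.le
    have hmin0 : 0 ≤ min (m : ℝ) (1 + 2 * (k : ℝ) / 2 ^ v) :=
      le_min (by positivity) (by positivity)
    have hmin1 : min (m : ℝ) (1 + 2 * (k : ℝ) / 2 ^ v) ≤ 3 * (k : ℝ) / 2 ^ v := by
      refine (min_le_right _ _).trans ?_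
      have h1 : (1 : ℝ) ≤ (k : ℝ) / 2 ^ v := by rw [le_div_iff₀ hp]; linarith
      have h2 : 2 * (k : ℝ) / 2 ^ v = 2 * ((k : ℝ) / 2 ^ v) := by ring
      have h3 : 3 * (k : ℝ) / 2 ^ v = 3 * ((k : ℝ) / 2 ^ v) := by ring
      rw [h2, h3]; linarith
    by_cases h8 : ε = 7 / 8
    · subst h8
      simp only [if_true] at hn
      have h1 := (hD 7 (by norm_num)).2 m v k hm hk
      rw [h7, Real.rpow_ofNat] at h1
      apply h1
      -- `36 k^(7/8) ≤ 2^v` gives `36^8 k^7 ≤ (2^v)^8`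
      have h2 : (36 : ℝ) ^ 8 * (k : ℝ) ^ 7 ≤ (2 ^ v) ^ 8 := by
        have h3 : (36 * (k : ℝ) ^ ((7 : ℝ) / 8)) ^ 8 ≤ ((2 : ℝ) ^ v) ^ 8 :=
          pow_le_pow_left₀ (by positivity) hn 8
        have h4 : ((k : ℝ) ^ ((7 : ℝ) / 8)) ^ 8 = (k : ℝ) ^ 7 := by
          rw [← Real.rpow_natCast ((k : ℝ) ^ ((7 : ℝ) / 8)) 8, ← Real.rpow_mul (by positivity)]
          norm_num
        rw [mul_pow, h4] at h3
        exact h3
      have h5 : (2 : ℝ) ^ 30 * (min (m : ℝ) (1 + 2 * (k : ℝ) / 2 ^ v)) ^ 7 ≤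
          2 ^ 30 * (3 * (k : ℝ) / 2 ^ v) ^ 7 := by gcongr
      refine h5.trans ?_
      rw [div_pow, mul_pow, ← mul_div_assoc, div_le_iff₀ (by positivity)]
      calc (2 : ℝ) ^ 30 * (3 ^ 7 * (k : ℝ) ^ 7) = (2 ^ 30 * 3 ^ 7) * (k : ℝ) ^ 7 := by ring
        _ ≤ 36 ^ 8 * (k : ℝ) ^ 7 := by gcongr; norm_num
        _ ≤ (2 ^ v) ^ 8 := h2
        _ = 2 ^ v * (2 ^ v) ^ 7 := by ring
    · simp only [if_neg h8] at hn
      obtain ⟨hDp, h1⟩ := hD ε hε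
      apply h1 m v k hm hk
      have h2 : (min (m : ℝ) (1 + 2 * (k : ℝ) / 2 ^ v)) ^ ε ≤ 3 ^ ε * (k : ℝ) ^ ε := by
        rw [← Real.mul_rpow (by norm_num) (by positivity)]
        refine Real.rpow_le_rpow hmin0 (hmin1.trans ?_) hε.le
        exact div_le_self (by positivity) hp1
      calc D ε * (min (m : ℝ) (1 + 2 * (k : ℝ) / 2 ^ v)) ^ ε ≤ D ε * (3 ^ ε * (k : ℝ) ^ ε) := by
            gcongr
        _ = D ε * 3 ^ ε * (k : ℝ) ^ ε := by ring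
        _ ≤ 2 ^ v := hn
  obtain ⟨A, hA, hAA⟩ := key
  exact ⟨A, hA, both_sides A hAA, hAA⟩

/-- The same with the cofactor `m` of `2^t`: all weights in all orders `2^t m` with
`2^t ≥ C ε * m^ε`, `C 7 = 2^30`. -/
theorem all_weights :
    ∃ C : ℝ → ℝ, C 7 = 2 ^ 30 ∧ ∀ ε : ℝ, 0 < ε →
      ∀ m t : ℕ, 0 < m → C ε * (m : ℝ) ^ ε ≤ 2 ^ t → ∀ k : ℕ, k ≤ 2 ^ t * m →
        ∃ A : Matrix (Fin (2 ^ t * m)) (Fin (2 ^ t * m)) ℤ,
          (∀ i j, A i j = 0 ∨ A i j = 1 ∨ A i j = -1) ∧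
          A.transpose * A = (k : ℤ) • (1 : Matrix (Fin (2 ^ t * m)) (Fin (2 ^ t * m)) ℤ) ∧
          A * A.transpose = (k : ℤ) • (1 : Matrix (Fin (2 ^ t * m)) (Fin (2 ^ t * m)) ℤ) := by
  obtain ⟨C, h7, hC⟩ := min_form
  refine ⟨C, h7, ?_⟩
  intro ε hε m t hm ht k hk
  obtain ⟨hCp, hC⟩ := hC ε hε
  have hmin0 : 0 ≤ min (m : ℝ) (1 + 2 * (k : ℝ) / 2 ^ t) := le_min (by positivity) (by positivity)
  have h1 : (min (m : ℝ) (1 + 2 * (k : ℝ) / 2 ^ t)) ^ ε ≤ (m : ℝ) ^ ε :=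
    Real.rpow_le_rpow hmin0 (min_le_left _ _) hε.le
  obtain ⟨A, hA, hAA⟩ := hC m t k hm hk ((mul_le_mul_of_nonneg_left h1 hCp.le).trans ht)
  exact ⟨A, hA, both_sides A hAA, hAA⟩

/-- Weight `n - 1` (Delsarte, Goethals, Seidel): skew Hadamard matrices of all orders `2^t m` with
`2^t ≥ C ε * m^ε`; in particular, for every odd `m` there is a skew Hadamard matrix of order
`2^t m` for some `t` (conjectured by Seberry in 1978). -/
theorem skew_hadamard :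
    ∃ C : ℝ → ℝ, C 7 = 2 ^ 30 ∧ ∀ ε : ℝ, 0 < ε →
      ∀ m t : ℕ, 0 < m → C ε * (m : ℝ) ^ ε ≤ 2 ^ t →
        ∃ H : Matrix (Fin (2 ^ t * m)) (Fin (2 ^ t * m)) ℤ,
          (∀ i j, H i j = 1 ∨ H i j = -1) ∧
          H + H.transpose = (2 : ℤ) • (1 : Matrix (Fin (2 ^ t * m)) (Fin (2 ^ t * m)) ℤ) ∧
          H * H.transpose =
            ((2 ^ t * m : ℕ) : ℤ) • (1 : Matrix (Fin (2 ^ t * m)) (Fin (2 ^ t * m)) ℤ) := by
  obtain ⟨C, h7, hC⟩ := all_weights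
  refine ⟨fun ε => max (C ε) 4, by simp only [h7]; norm_num, ?_⟩
  intro ε hε m t hm ht
  have hm1 : (1 : ℝ) ≤ (m : ℝ) ^ ε := Real.one_le_rpow (by exact_mod_cast hm) hε.le
  have ht1 : C ε * (m : ℝ) ^ ε ≤ 2 ^ t := by
    refine le_trans ?_ ht
    exact mul_le_mul_of_nonneg_right (le_max_left _ _) (by linarith)
  have ht2 : (4 : ℝ) ≤ 2 ^ t := by
    refine le_trans ?_ ht
    calc (4 : ℝ) = 4 * 1 := by ring
      _ ≤ max (C ε) 4 * (m : ℝ) ^ ε :=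
        mul_le_mul (le_max_right _ _) hm1 (by norm_num) (le_trans (by norm_num) (le_max_right _ _))
  have ht3 : 2 ≤ t := by
    have : 2 ^ 2 ≤ 2 ^ t := by exact_mod_cast ht2
    exact (Nat.pow_le_pow_iff_right (by norm_num)).1 this
  obtain ⟨s, rfl⟩ : ∃ s, t = s + 2 := ⟨t - 2, by omega⟩
  generalize hn : 2 ^ (s + 2) * m = n at *
  have h4 : 4 ∣ n := ⟨2 ^ s * m, by rw [← hn]; ring⟩
  have hn1 : 1 ≤ n := by rw [← hn]; exact Nat.mul_pos (by positivity) hm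
  obtain ⟨A, hA, _, hAA⟩ := hC ε hε m (s + 2) hm ht1 (n - 1) (by rw [hn]; omega)
  have hW : HasW n (n - 1) := by
    rw [← hn] at *
    exact ⟨A, hA, hAA⟩
  obtain ⟨K, hK, hKt, hKK⟩ := NF.skew_of_conf n hn1 h4 hW
  refine ⟨1 + K, fun i j => ?_, ?_, ?_⟩
  · by_cases hij : i = j
    · subst hij
      have h0 := congrFun (congrFun hKt i) i
      rw [Matrix.transpose_apply, Matrix.neg_apply] at h0
      left
      rw [Matrix.add_apply, Matrix.one_apply_eq]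
      omega
    · rw [Matrix.add_apply, Matrix.one_apply_ne hij, zero_add]
      exact hK i j hij
  · rw [Matrix.transpose_add, Matrix.transpose_one, hKt]
    module
  · have e : (1 + K) * (1 + K).transpose = 1 + (K + K.transpose) + K * K.transpose := by
      rw [Matrix.transpose_add, Matrix.transpose_one]; noncomm_ring
    rw [e, hKt, add_neg_cancel, hKt.symm, hKK]
    module

end Pool.Agent.Results.MP_be2ccc_co.LargeTwoPart
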