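import Mathlib
import Pool.Agent.Lib.MP_be2ccc_co.Main

/-!
# Weighing matrices of every weight up to a power of the order

For every `ε > 0` there is `c > 0` such that every order `n` divisible by `4` admits weighing
matrices of all weights `k ≤ c n ^ (2/3 - ε)`; the range grows with the power of two dividing `n`.
(The case `v = 2` has `2 ^ (v / 2) = 2` and covers all `n ≡ 0 (mod 4)`.)
-/

set_option autoImplicit false

namespace Pool.Agent.Results.MP_be2ccc_co.SmallWeights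

/-- For every `ε > 0` there is `c > 0` such that, whenever `v ≥ 2`, `2 ^ v ∣ n`, `n > 0` and
`k ≤ c (2 ^ (v/2) n) ^ (2/3 - ε)`, there is a weighing matrix of order `n` and weight `k`. -/
theorem result (ε : ℝ) (hε : 0 < ε) :
    ∃ c : ℝ, 0 < c ∧ ∀ v n k : ℕ, 2 ≤ v → 0 < n → 2 ^ v ∣ n →
      (k : ℝ) ≤ c * ((2 : ℝ) ^ ((v : ℝ) / 2) * (n : ℝ)) ^ ((2 : ℝ) / 3 - ε) →
      ∃ A : Matrix (Fin n) (Fin n) ℤ,
        (∀ i j, A i j = 0 ∨ A i j = 1 ∨ A i j = -1) ∧
        A.transpose * A = (k : ℤ) • (1 : Matrix (Fin n) (Fin n) ℤ) ∧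
        A * A.transpose = (k : ℤ) • (1 : Matrix (Fin n) (Fin n) ℤ) := by
  obtain ⟨c, hc, h⟩ := Pool.Agent.Lib.MP_be2ccc_co.main ε hε
  refine ⟨c, hc, fun v n k hv hn hvn hk => ?_⟩
  obtain ⟨A, hA, hAA⟩ := h v n k hv hn hvn hk
  exact ⟨A, hA, Pool.Agent.Lib.MP_be2ccc_co.both_sides A hAA, hAA⟩

end Pool.Agent.Results.MP_be2ccc_co.SmallWeights
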